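import Pool.Agent.Helper32.OIP.Goals

/-! Packet OIP-O1: the structure map. -/

set_option autoImplicit false

namespace Pool.Agent.Helper79.OIP

open MeasureTheory Pool.Agent.Helper32.OIP Pool.Agent.Helper58.Orb

theorem o1 : GoalO1 := by
  intro A B _ _ _ _ S S' D L _ _ T T' e₀ Φ hΦ
  classical
  have hm : Measurable Φ := hΦ.measurePreserving.measurable
  have hfree' := hΦ.measurePreserving.quasiMeasurePreserving.ae (ae_free (G := B))
  have h1 : ∀ᵐ x ∂(bern A), ∃! f : D ≃ L, ∀ s,
      Φ (shift (T.dir s) x) = shift (T'.dir (f s)) (Φ x) := by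
    filter_upwards [unique_dir T T' (Fintype.card_congr e₀) hΦ, hfree'] with x hu hf
    have hinj : ∀ l l' : L, shift (T'.dir l) (Φ x) = shift (T'.dir l') (Φ x) → l = l' := by
      intro l l' e1
      have e2 : (T'.dir l)⁻¹ * T'.dir l' = 1 := by
        apply hf
        rw [shift_mul, ← e1, shift_inv_shift]
      exact T'.inj (inv_mul_eq_one.1 e2)
    choose σ hσ using fun l => (hu l).exists
    have hσ' : ∀ l, Φ (shift (T.dir (σ l)) x) = shift (T'.dir l) (Φ x) := hσ
    have hσi : Function.Injective σ := by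
      intro l l' hll
      refine hinj l l' ?_
      rw [← hσ' l, ← hσ' l', hll]
    have hσb : Function.Bijective σ :=
      (Fintype.bijective_iff_injective_and_card σ).2 ⟨hσi, (Fintype.card_congr e₀).symm⟩
    refine ⟨(Equiv.ofBijective σ hσb).symm, ?_, ?_⟩
    · intro s
      have h2 := hσ' ((Equiv.ofBijective σ hσb).symm s)
      have h3 : σ ((Equiv.ofBijective σ hσb).symm s) = s :=
        (Equiv.ofBijective σ hσb).apply_symm_apply s
      rw [h3] at h2
      exact h2
    · intro f' hf'
      ext s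
      refine hinj _ _ ?_
      rw [← hf' s]
      have h2 := hσ' ((Equiv.ofBijective σ hσb).symm s)
      have h3 : σ ((Equiv.ofBijective σ hσb).symm s) = s :=
        (Equiv.ofBijective σ hσb).apply_symm_apply s
      rw [h3] at h2
      exact h2
  have hlab : ∀ x, (∃! f : D ≃ L, ∀ s,
      Φ (shift (T.dir s) x) = shift (T'.dir (f s)) (Φ x)) → ∀ s,
      Φ (shift (T.dir s) x) = shift (T'.dir (lab T T' e₀ Φ x s)) (Φ x) := by
    intro x hx
    unfold lab
    rw [dif_pos hx]
    exact hx.choose_spec.1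
  refine ⟨h1, h1.mono hlab, ?_⟩
  intro f₀
  have hP : ∀ f : D ≃ L, MeasurableSet {x | ∀ s,
      Φ (shift (T.dir s) x) = shift (T'.dir (f s)) (Φ x)} := by
    intro f
    have e : {x | ∀ s, Φ (shift (T.dir s) x) = shift (T'.dir (f s)) (Φ x)} =
        ⋂ s, agree Φ (T.dir s) (T'.dir (f s)) := by
      ext x
      simp only [agree, Set.mem_ofPred_eq, Set.mem_iInter]
    rw [e]
    exact MeasurableSet.iInter fun s => measurableSet_agree hm _ _
  have hU : MeasurableSet {x | ∃! f : D ≃ L, ∀ s,
      Φ (shift (T.dir s) x) = shift (T'.dir (f s)) (Φ x)} := by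
    have e : {x | ∃! f : D ≃ L, ∀ s, Φ (shift (T.dir s) x) = shift (T'.dir (f s)) (Φ x)} =
        ⋃ f : D ≃ L, ({x | ∀ s, Φ (shift (T.dir s) x) = shift (T'.dir (f s)) (Φ x)} ∩
          ⋂ f' : D ≃ L, {x | (∀ s, Φ (shift (T.dir s) x) = shift (T'.dir (f' s)) (Φ x)) →
            f' = f}) := by
      ext x
      simp only [ExistsUnique, Set.mem_ofPred_eq, Set.mem_iUnion, Set.mem_inter_iff,
        Set.mem_iInter]
    rw [e]
    refine MeasurableSet.iUnion fun f => (hP f).inter (MeasurableSet.iInter fun f' => ?_)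
    by_cases h : f' = f
    · have e2 : {x | (∀ s, Φ (shift (T.dir s) x) = shift (T'.dir (f' s)) (Φ x)) → f' = f} =
          Set.univ := by
        ext x
        simp [h]
      rw [e2]
      exact MeasurableSet.univ
    · have e2 : {x | (∀ s, Φ (shift (T.dir s) x) = shift (T'.dir (f' s)) (Φ x)) → f' = f} =
          {x | ∀ s, Φ (shift (T.dir s) x) = shift (T'.dir (f' s)) (Φ x)}ᶜ := by
        ext x
        simp only [Set.mem_ofPred_eq, Set.mem_compl_iff]
        exact ⟨fun h2 h3 => h (h2 h3), fun h2 h3 => absurd h3 h2⟩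
      rw [e2]
      exact (hP f').compl
  have e : {x | lab T T' e₀ Φ x = f₀} =
      ({x | ∃! f : D ≃ L, ∀ s, Φ (shift (T.dir s) x) = shift (T'.dir (f s)) (Φ x)} ∩
        {x | ∀ s, Φ (shift (T.dir s) x) = shift (T'.dir (f₀ s)) (Φ x)}) ∪
      ({x | ∃! f : D ≃ L, ∀ s, Φ (shift (T.dir s) x) = shift (T'.dir (f s)) (Φ x)}ᶜ ∩
        {x | e₀ = f₀}) := by
    ext x
    by_cases hx : ∃! f : D ≃ L, ∀ s, Φ (shift (T.dir s) x) = shift (T'.dir (f s)) (Φ x)
    · simp only [Set.mem_ofPred_eq, Set.mem_union, Set.mem_inter_iff, Set.mem_compl_iff]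
      constructor
      · intro h2
        left
        refine ⟨hx, ?_⟩
        rw [← h2]
        exact hlab x hx
      · rintro (h2 | h2)
        · exact hx.unique (hlab x hx) h2.2
        · exact absurd hx h2.1
    · simp only [Set.mem_ofPred_eq, Set.mem_union, Set.mem_inter_iff, Set.mem_compl_iff]
      have h3 : lab T T' e₀ Φ x = e₀ := by
        unfold lab
        rw [dif_neg hx]
      rw [h3]
      constructor
      · intro h2
        exact Or.inr ⟨hx, h2⟩
      · rintro (h2 | h2)
        · exact absurd h2.1 hx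
        · exact h2.2
  rw [e]
  refine (hU.inter (hP f₀)).union (hU.compl.inter ?_)
  by_cases h : e₀ = f₀
  · have e2 : {x : Bern A | e₀ = f₀} = Set.univ := by
      ext x
      simp [h]
    rw [e2]
    exact MeasurableSet.univ
  · have e2 : {x : Bern A | e₀ = f₀} = ∅ := by
      ext x
      simp [h]
    rw [e2]
    exact MeasurableSet.empty

end Pool.Agent.Helper79.OIP
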